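import Pool.Agent.helper63.NU.Defs2
import Pool.Agent.helper41.NU.A1
import Pool.Agent.helper41.NU.A2
import Pool.Agent.helper40.NU.A5
import Pool.Agent.helper70.NU.A7
import Pool.Agent.helper69.NU.A9
import Pool.Agent.helper69.NU.B1
import Pool.Agent.helper69.NU.B2
import Pool.Agent.helper51.NU.B3
import Pool.Agent.helper80.NU.B4
import Pool.Agent.helper53.NU.C1
import Pool.Agent.helper85.NU.C2

set_option autoImplicit false
set_option linter.all false

/-! Module C3: local model sections. -/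

open MeasureTheory Filter Topology Set
open scoped ContDiff Manifold Matrix ENNReal ComplexOrder

noncomputable section

namespace Pool.Agent.helper63.NU

namespace C3

section Local

variable {n : ℕ}

/-- the Hermitian form of the Hessian -/
def hf (H : Matrix (Fin n) (Fin n) ℂ) (z : E n) : ℝ :=
  (∑ j, ∑ k, H j k * z j * (starRingEnd ℂ) (z k)).re

theorem hf_pos {H : Matrix (Fin n) (Fin n) ℂ} (hH : H.PosDef) {z : E n} (hz : z ≠ 0) :
    0 < hf H z := by
  have h1 := (Matrix.posDef_iff_dotProduct_mulVec.1 hH).2 (x := star z)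
    (by intro h; exact hz (star_eq_zero.1 h))
  have h2 : hf H z = (star (star z) ⬝ᵥ (H *ᵥ (star z))).re := by
    unfold hf
    congr 1
    simp only [dotProduct, Matrix.mulVec, star_star, Finset.mul_sum]
    refine Finset.sum_congr rfl fun j _ => Finset.sum_congr rfl fun k _ => ?_
    simp only [Pi.star_apply, RCLike.star_def]
    ring
  rw [h2]
  exact (Complex.pos_iff.1 h1).1

theorem hf_smul (H : Matrix (Fin n) (Fin n) ℂ) (t : ℝ) (z : E n) :
    hf H (t • z) = t ^ 2 * hf H z := by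
  unfold hf
  rw [← Complex.re_ofReal_mul]
  congr 1
  simp only [Finset.mul_sum]
  refine Finset.sum_congr rfl fun j _ => Finset.sum_congr rfl fun k _ => ?_
  simp only [Pi.smul_apply, Complex.real_smul, map_mul, Complex.conj_ofReal]
  push_cast
  ring

theorem hf_zero (H : Matrix (Fin n) (Fin n) ℂ) : hf H 0 = 0 := by
  simp [hf]

theorem continuousOn_hf {U : Set (E n)} (hU : IsOpen U) {ψ : E n → ℝ} (hψ : ContDiffOn ℝ ∞ ψ U) :
    ContinuousOn (fun q : E n × E n => hf (lev ψ q.1) q.2) (U ×ˢ univ) := by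
  unfold hf
  refine Complex.continuous_re.comp_continuousOn ?_
  refine continuousOn_finset_sum _ fun j _ => continuousOn_finset_sum _ fun k _ => ?_
  have h1 : ContinuousOn (fun q : E n × E n => lev ψ q.1 j k) (U ×ˢ univ) :=
    (contDiffOn_lev hU hψ j k).continuousOn.comp continuousOn_fst (fun q hq => hq.1)
  refine (h1.mul ?_).mul ?_
  · exact ((continuous_apply j).comp continuous_snd).continuousOn
  · exact (Complex.continuous_conj.comp ((continuous_apply k).comp continuous_snd)).continuousOn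

/-- uniform positivity on compact sets -/
theorem hf_lower {U : Set (E n)} (hU : IsOpen U) {ψ : E n → ℝ} (hψ : ContDiffOn ℝ ∞ ψ U)
    (hp : ∀ y ∈ U, (lev ψ y).PosDef) {K : Set (E n)} (hK : IsCompact K) (hKU : K ⊆ U) :
    ∃ c > 0, ∀ p ∈ K, ∀ z, c * ‖z‖ ^ 2 ≤ hf (lev ψ p) z := by
  have hS : IsCompact (K ×ˢ Metric.sphere (0 : E n) 1) := hK.prod (isCompact_sphere 0 1)
  have hc : ContinuousOn (fun q : E n × E n => hf (lev ψ q.1) q.2) (K ×ˢ Metric.sphere (0 : E n) 1) :=
    (continuousOn_hf hU hψ).mono fun q hq => ⟨hKU hq.1, mem_univ _⟩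
  obtain ⟨c, hc0, hcl⟩ : ∃ c > 0, ∀ q ∈ K ×ˢ Metric.sphere (0 : E n) 1, c ≤ hf (lev ψ q.1) q.2 := by
    rcases (K ×ˢ Metric.sphere (0 : E n) 1).eq_empty_or_nonempty with h | h
    · exact ⟨1, one_pos, by simp [h]⟩
    · obtain ⟨q, hq, hmin⟩ := hS.exists_isMinOn h hc
      refine ⟨_, hf_pos (hp q.1 (hKU hq.1)) (z := q.2) ?_, fun q' hq' => hmin hq'⟩
      intro h0
      have := hq.2
      rw [h0] at this
      simp at this
  refine ⟨c, hc0, fun p hpK z => ?_⟩
  by_cases hz : z = 0
  · simp [hz, hf_zero]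
  · have hz' : 0 < ‖z‖ := norm_pos_iff.2 hz
    have h1 := hcl (p, ‖z‖⁻¹ • z) ⟨hpK, by
      simp [norm_smul, hz'.ne']⟩
    have h2 : hf (lev ψ p) z = ‖z‖ ^ 2 * hf (lev ψ p) (‖z‖⁻¹ • z) := by
      rw [← hf_smul, smul_smul, mul_inv_cancel₀ hz'.ne', one_smul]
    rw [h2, mul_comm c]
    exact mul_le_mul_of_nonneg_left h1 (by positivity)

theorem det_pos {H : Matrix (Fin n) (Fin n) ℂ} (hH : H.PosDef) : 0 < H.det.re :=
  (Complex.pos_iff.1 hH.det_pos).1

theorem continuousOn_det {U : Set (E n)} (hU : IsOpen U) {ψ : E n → ℝ} (hψ : ContDiffOn ℝ ∞ ψ U) :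
    ContinuousOn (fun y => (lev ψ y).det.re) U := by
  refine Complex.continuous_re.comp_continuousOn ?_
  have : ContinuousOn (fun y => lev ψ y) U := by
    refine continuousOn_pi.2 fun j => continuousOn_pi.2 fun k => ?_
    exact (contDiffOn_lev hU hψ j k).continuousOn
  exact (Continuous.matrix_det continuous_id).comp_continuousOn this

/-- positive lower bound of a positive continuous function on a compact set -/
theorem lower_of_pos {X : Type*} [TopologicalSpace X] {K : Set X} (hK : IsCompact K) {f : X → ℝ}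
    (hf : ContinuousOn f K) (h0 : ∀ x ∈ K, 0 < f x) : ∃ c > 0, ∀ x ∈ K, c ≤ f x := by
  rcases K.eq_empty_or_nonempty with h | h
  · exact ⟨1, one_pos, by simp [h]⟩
  · obtain ⟨q, hq, hmin⟩ := hK.exists_isMinOn h hf
    exact ⟨_, h0 q hq, fun q' hq' => hmin hq'⟩

theorem upper_bound {X : Type*} [TopologicalSpace X] {K : Set X} (hK : IsCompact K) {f : X → ℝ}
    (hf : ContinuousOn f K) : ∃ c > 0, ∀ x ∈ K, f x ≤ c := by
  rcases K.eq_empty_or_nonempty with h | h
  · exact ⟨1, one_pos, by simp [h]⟩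
  · obtain ⟨q, hq, hmax⟩ := hK.exists_isMaxOn h hf
    exact ⟨max (f q) 1, lt_max_of_lt_right one_pos, fun q' hq' => le_max_of_le_left (hmax hq')⟩

/-- the covectors of norm `≤ A` have bounded norm for the metric `lev ψ` on compact sets -/
theorem cn_upper {U : Set (E n)} (hU : IsOpen U) {ψ : E n → ℝ} (hψ : ContDiffOn ℝ ∞ ψ U)
    (hp : ∀ y ∈ U, (lev ψ y).PosDef) {K : Set (E n)} (hK : IsCompact K) (hKU : K ⊆ U) (A : ℝ) :
    ∃ C > 0, ∀ y ∈ K, ∀ α : E n, ‖α‖ ≤ A → (cn (lev ψ y) α α).re ≤ C := by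
  have hS : IsCompact (K ×ˢ Metric.closedBall (0 : E n) A) := hK.prod (isCompact_closedBall 0 A)
  obtain ⟨C, hC, h⟩ := upper_bound hS (f := fun q : E n × E n => (cn (lev ψ q.1) q.2 q.2).re) (by
    refine Complex.continuous_re.comp_continuousOn ?_
    unfold cn
    refine continuousOn_finset_sum _ fun j _ => continuousOn_finset_sum _ fun k _ => ?_
    have h1 : ContinuousOn (fun q : E n × E n => (lev ψ q.1)⁻¹ j k)
        (K ×ˢ Metric.closedBall (0 : E n) A) :=
      (contDiffOn_lev_inv hU hψ hp j k).continuousOn.comp continuousOn_fst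
        (fun q hq => hKU hq.1)
    refine (ContinuousOn.mul ?_ h1).mul ?_
    · exact ((continuous_apply j).comp continuous_snd).continuousOn
    · exact (Complex.continuous_conj.comp ((continuous_apply k).comp continuous_snd)).continuousOn)
  exact ⟨C, hC, fun y hy α hα => h (y, α) ⟨hy, by simpa using hα⟩⟩

theorem cn_smul (Θ : Matrix (Fin n) (Fin n) ℂ) (c : ℂ) (α : Fin n → ℂ) :
    (cn Θ (fun j => c * α j) (fun j => c * α j)).re = ‖c‖ ^ 2 * (cn Θ α α).re := by
  have : cn Θ (fun j => c * α j) (fun j => c * α j) = ((‖c‖ ^ 2 : ℝ) : ℂ) * cn Θ α α := by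
    unfold cn
    rw [Finset.mul_sum]
    refine Finset.sum_congr rfl fun k _ => ?_
    rw [Finset.mul_sum]
    refine Finset.sum_congr rfl fun j _ => ?_
    have h : ((‖c‖ ^ 2 : ℝ) : ℂ) = c * (starRingEnd ℂ) c := by
      rw [Complex.mul_conj, Complex.normSq_eq_norm_sq]
    rw [h, map_mul]
    ring
  rw [this, Complex.re_ofReal_mul]

/-- choice of the small parameter -/
theorem exists_t (n : ℕ) {ε : ℝ} (hε : 0 < ε) : ∃ t > 0, t < 1 ∧ (1 + t) / (1 - t) ^ n ≤ 1 + ε := by
  have hc : ContinuousAt (fun t : ℝ => (1 + t) / (1 - t) ^ n) 0 := by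
    refine ContinuousAt.div ?_ ?_ ?_
    · fun_prop
    · fun_prop
    · simp
  have h1 : ∀ᶠ t in 𝓝 (0 : ℝ), (1 + t) / (1 - t) ^ n < 1 + ε := by
    refine hc.eventually_lt_const ?_
    simpa using hε
  have h2 : ∀ᶠ t in 𝓝 (0 : ℝ), t < 1 := eventually_lt_nhds one_pos
  obtain ⟨t, ⟨h, h'⟩, ht⟩ :=
    (((h1.and h2).filter_mono nhdsWithin_le_nhds).and (self_mem_nhdsWithin (s := Ioi (0 : ℝ)))).exists
  exact ⟨t, ht, h', h.le⟩

/-- uniform local data -/
theorem local_data {U : Set (E n)} (hU : IsOpen U) {ψ : E n → ℝ} (hψ : ContDiffOn ℝ ∞ ψ U)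
    (hp : ∀ y ∈ U, (lev ψ y).PosDef) {K : Set (E n)} (hK : IsCompact K) (hKU : K ⊆ U) {ε : ℝ}
    (hε : 0 < ε) : ∃ δ > 0, Metric.cthickening δ K ⊆ U ∧ ∃ c₀ > 0, ∃ t > 0, t < 1 ∧
      (1 + t) / (1 - t) ^ n ≤ 1 + ε ∧ ∀ p ∈ K, ∃ g : E n → ℂ, Differentiable ℂ g ∧
      ψ p = 2 * (g p).re ∧ ∀ y ∈ Metric.closedBall p δ,
        (1 - t) * hf (lev ψ p) (y - p) ≤ ψ y - 2 * (g y).re ∧
        c₀ * ‖y - p‖ ^ 2 ≤ ψ y - 2 * (g y).re ∧
        (lev ψ y).det.re ≤ (1 + t) * (lev ψ p).det.re := by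
  obtain ⟨t, ht0, ht1, htε⟩ := exists_t n hε
  obtain ⟨δ, hδ, hδU⟩ := hK.exists_cthickening_subset_open hU hKU
  have hK1 : IsCompact (Metric.cthickening δ K) := hK.cthickening
  obtain ⟨c, hc, hcl⟩ := hf_lower hU hψ hp hK hKU
  obtain ⟨d, hd, hdl⟩ := lower_of_pos hK1 ((continuousOn_det hU hψ).mono hδU)
    (fun y hy => det_pos (hp y (hδU hy)))
  have huc := hK1.uniformContinuousOn_of_continuous ((continuousOn_det hU hψ).mono hδU)
  rw [Metric.uniformContinuousOn_iff] at huc
  obtain ⟨r₂, hr₂, hr₂'⟩ := huc (t * d) (by positivity)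
  obtain ⟨r₁, hr₁, hr₁'⟩ := taylor_unif hU hψ hK hKU (ε := t * c) (by positivity)
  refine ⟨min r₁ (min δ (r₂ / 2)), by positivity,
    (Metric.cthickening_mono (le_trans (min_le_right _ _) (min_le_left _ _)) K).trans hδU,
    (1 - t) * c, by have := sub_pos.2 ht1; positivity, t, ht0, ht1, htε, fun p hpK => ?_⟩
  obtain ⟨-, g, hg, hgt⟩ := hr₁' p hpK
  have h1t : 0 < 1 - t := sub_pos.2 ht1
  refine ⟨g, hg, ?_, fun y hy => ?_⟩
  · have h := hgt p (Metric.mem_closedBall_self hr₁.le)
    simp only [sub_self, mul_zero, map_zero, Finset.sum_const_zero, Complex.zero_re, sub_zero,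
      norm_zero, ne_eq, OfNat.ofNat_ne_zero, not_false_eq_true, zero_pow] at h
    have := abs_nonpos_iff.1 h
    linarith
  · have hy1 : y ∈ Metric.closedBall p r₁ := Metric.closedBall_subset_closedBall (min_le_left _ _) hy
    have hyδ : dist y p ≤ δ := (Metric.mem_closedBall.1 hy).trans
      ((min_le_right _ _).trans (min_le_left _ _))
    have hyr : dist y p < r₂ := lt_of_le_of_lt ((Metric.mem_closedBall.1 hy).trans
      ((min_le_right _ _).trans (min_le_right _ _))) (by linarith)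
    have h := hgt y hy1
    have h' : hf (lev ψ p) (y - p) = (∑ j, ∑ k, lev ψ p j k * (y j - p j) *
          (starRingEnd ℂ) (y k - p k)).re := rfl
    rw [← h'] at h
    have h2 := (abs_le.1 h).1
    have h3 := hcl p hpK (y - p)
    have h4 : t * c * ‖y - p‖ ^ 2 ≤ t * hf (lev ψ p) (y - p) := by
      rw [mul_assoc]; exact mul_le_mul_of_nonneg_left h3 ht0.le
    have h5 : (1 - t) * (c * ‖y - p‖ ^ 2) ≤ (1 - t) * hf (lev ψ p) (y - p) :=
      mul_le_mul_of_nonneg_left h3 h1t.le
    refine ⟨by linarith, by linarith, ?_⟩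
    have hpc : p ∈ Metric.cthickening δ K := Metric.self_subset_cthickening K hpK
    have hyc : y ∈ Metric.cthickening δ K := Metric.mem_cthickening_of_dist_le y p δ K hpK hyδ
    have h6 := hr₂' y hyc p hpc hyr
    rw [Real.dist_eq] at h6
    have h7 := (abs_lt.1 h6).2
    have h8 := mul_le_mul_of_nonneg_left (hdl p hpc) ht0.le
    linarith

/-- the cut-off model function -/
def mu (χ : E n → ℝ) (g : E n → ℂ) (k : ℕ) (p : E n) (y : E n) : ℂ :=
  ((χ (y - p) : ℝ) : ℂ) * Complex.exp (k * g y)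

theorem mu_contDiff {χ : E n → ℝ} (hχ : ContDiff ℝ ∞ χ) {g : E n → ℂ} (hg : Differentiable ℂ g)
    (k : ℕ) (p : E n) : ContDiff ℝ ∞ (mu χ g k p) := by
  unfold mu
  have h1 : ContDiff ℝ ∞ g :=
    contDiffOn_univ.1 (contDiffOn_real_of_hol isOpen_univ hg.differentiableOn)
  refine ContDiff.mul ?_ ?_
  · exact Complex.ofRealCLM.contDiff.comp (hχ.comp (contDiff_id.sub contDiff_const))
  · exact (contDiff_const.mul h1).cexp

theorem mu_tsupport {χ : E n → ℝ} {r : ℝ} (hχ : ∀ z, r < ‖z‖ → χ z = 0) {g : E n → ℂ}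
    (k : ℕ) (p : E n) : tsupport (mu χ g k p) ⊆ Metric.closedBall p r := by
  refine closure_minimal ?_ Metric.isClosed_closedBall
  intro y hy
  by_contra h
  rw [Metric.mem_closedBall, not_le, dist_eq_norm] at h
  apply hy
  simp [mu, hχ _ h]

theorem norm_mu_sq (χ : E n → ℝ) (g : E n → ℂ) (k : ℕ) (p y : E n) (a : ℝ) :
    ‖mu χ g k p y‖ ^ 2 * Real.exp (-(k * a))
      = χ (y - p) ^ 2 * Real.exp (-(k * (a - 2 * (g y).re))) := by
  unfold mu
  rw [norm_mul, Complex.norm_real, Complex.norm_exp, mul_pow, mul_assoc, Real.norm_eq_abs, sq_abs,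
    ← Real.exp_nat_mul, ← Real.exp_add]
  congr 2
  simp only [Complex.mul_re, Complex.natCast_re, Complex.natCast_im, zero_mul, sub_zero]
  push_cast
  ring

theorem db_shift (f : E n → ℂ) (p y : E n) (j : Fin n) :
    db j (fun z => f (z - p)) y = db j f (y - p) := by
  unfold db
  have : fderiv ℝ (fun z => f (z - p)) y = fderiv ℝ f (y - p) := by
    exact fderiv_comp_sub p
  rw [this]

theorem dbv_mu {χ : E n → ℝ} (hχ : ContDiff ℝ ∞ χ) {g : E n → ℂ} (hg : Differentiable ℂ g)
    (k : ℕ) (p y : E n) (j : Fin n) : dbv (mu χ g k p) y j =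
      Complex.exp (k * g y) * dbv (fun z => ((χ z : ℝ) : ℂ)) (y - p) j := by
  unfold dbv mu
  have h1 : DifferentiableAt ℝ (fun z : E n => ((χ (z - p) : ℝ) : ℂ)) y := by
    have : ContDiff ℝ ∞ (fun z : E n => ((χ (z - p) : ℝ) : ℂ)) :=
      Complex.ofRealCLM.contDiff.comp (hχ.comp (contDiff_id.sub contDiff_const))
    exact (this.differentiable (by simp)).differentiableAt
  have h2 : Differentiable ℂ (fun z : E n => Complex.exp (k * g z)) := (hg.const_mul _).cexp
  rw [db_mul h1 ((h2 y).restrictScalars ℝ), db_hol (h2 y), mul_zero, add_zero,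
    db_shift (fun z => ((χ z : ℝ) : ℂ)) p y j, mul_comm]

end Local

section Global

variable {n : ℕ} {M : Type*} [TopologicalSpace M] [ChartedSpace (E n) M]
  [IsManifold 𝓘(ℂ, E n) ω M]
variable [CompactSpace M] [T2Space M]
variable [MeasurableSpace M] [BorelSpace M] {μ : Measure M} {φ : Fam n M ℝ}

/-- the conclusion at one point, for one `k` -/
def Model (μ : Measure M) (φ : Fam n M ℝ) (ε C c : ℝ) (k : ℕ) (x : M) : Prop :=
  ∃ σ : Fam n M ℂ, IsSec k σ ∧
      nrm k φ σ x = 1 ∧
      ∫ x, nrm k φ σ x * dl φ x ∂μ ≤ (1 + ε) * (Real.pi / k) ^ n ∧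
      (dp μ φ (psik k φ) σ σ).re ≤ C * Real.exp (-(c * k)) ∧
      ∀ h : Fam n M ℂ, IsHol k h →
        nrm k φ (σ - h) x ≤ C * (k : ℝ) ^ n * ∫ x, nrm k φ (σ - h) x * dl φ x ∂μ

omit [IsManifold 𝓘(ℂ, E n) ω M] [CompactSpace M] [T2Space M] [MeasurableSpace M] [BorelSpace M] in
theorem nrm_nonneg (k : ℕ) (φ : Fam n M ℝ) (s : Fam n M ℂ) (x : M) : 0 ≤ nrm k φ s x := by
  unfold nrm; positivity

theorem integral_nrm_nonneg (hφ : IsPos 1 φ) (k : ℕ) (s : Fam n M ℂ) :
    0 ≤ ∫ x, nrm k φ s x * dl φ x ∂μ :=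
  integral_nonneg fun x => mul_nonneg (nrm_nonneg k φ s x) (dl_pos hφ x).le

theorem Model.mono (hφ : IsPos 1 φ) {ε C c C' c' : ℝ} {k : ℕ} {x : M} (hC : C ≤ C') (hC0 : 0 ≤ C)
    (hc : c' ≤ c) (h : Model μ φ ε C c k x) : Model μ φ ε C' c' k x := by
  obtain ⟨σ, h1, h2, h3, h4, h5⟩ := h
  refine ⟨σ, h1, h2, h3, h4.trans ?_, fun h hh => (h5 h hh).trans ?_⟩
  · refine mul_le_mul hC (Real.exp_le_exp.2 ?_) (Real.exp_pos _).le (hC0.trans hC)
    have := mul_le_mul_of_nonneg_right hc (Nat.cast_nonneg (α := ℝ) k)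
    linarith
  · have := integral_nrm_nonneg (μ := μ) hφ k (σ - h)
    gcongr

omit [CompactSpace M] [MeasurableSpace M] [BorelSpace M] in
theorem isClosed_image {e : Ch n M} {B : Set (E n)} (hB : IsCompact B) (hBe : B ⊆ e.target) :
    IsClosed (e.symm '' B) :=
  (hB.image_of_continuousOn (e.continuousOn_symm.mono hBe)).isClosed

omit [IsManifold 𝓘(ℂ, E n) ω M] [CompactSpace M] [T2Space M] [MeasurableSpace M] [BorelSpace M]
  [ChartedSpace (E n) M] in
theorem ext_zero (k : ℕ) {e : Ch n M} {u : E n → ℂ} {B : Set (E n)} (hu : tsupport u ⊆ B)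
    {e' : Ch n M} {y : E n} (hy : e'.symm y ∉ e.symm '' B) :
    (ext k e u : Fam n M ℂ) e' y = 0 := by
  unfold ext
  split_ifs with h
  · have : u (e (e'.symm y)) = 0 := by
      apply image_eq_zero_of_notMem_tsupport
      intro h'
      exact hy ⟨_, hu h', e.left_inv h.2⟩
    rw [this, mul_zero]
  · rfl

theorem chart_formula (hφ : IsPos 1 φ) (hμ : IsDens μ φ) {k : ℕ} {s : Fam n M ℂ} (hs : IsSec k s)
    {e : Ch n M} (he : e ∈ atlas (E n) M) {B : Set (E n)} (hB : IsCompact B) (hBe : B ⊆ e.target) :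
    ∫ x, (e.symm '' B).indicator (fun x => nrm k φ s x * dl φ x) x ∂μ =
      ∫ y in B, ‖s e y‖ ^ 2 * Real.exp (-(k * φ e y)) * (lev (φ e) y).det.re := by
  rw [← setIntegral_eq_integral_of_forall_compl_eq_zero (s := e.source) (by
    intro x hx
    refine Set.indicator_of_notMem ?_ _
    rintro ⟨y, hy, rfl⟩
    exact hx (e.map_target (hBe hy)))]
  rw [setIntegral_chart_real hφ.toIsWeight hμ he]
  have h1 : ∫ y in e.target, (e.symm '' B).indicator (fun x => nrm k φ s x * dl φ x) (e.symm y) *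
      Real.exp (-φ e y) = ∫ y in e.target, B.indicator (fun y => ‖s e y‖ ^ 2 *
        Real.exp (-(k * φ e y)) * (lev (φ e) y).det.re) y := by
    refine setIntegral_congr_fun e.open_target.measurableSet fun y hy => ?_
    have hx : e.symm y ∈ e.source := e.map_target hy
    have hiff : e.symm y ∈ e.symm '' B ↔ y ∈ B := by
      constructor
      · rintro ⟨y', hy', h⟩
        have : y' = y := e.symm.injOn (hBe hy') hy h
        exact this ▸ hy'
      · exact fun h => ⟨y, h, rfl⟩
    by_cases hyB : y ∈ B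
    · simp only [Set.indicator_of_mem hyB, Set.indicator_of_mem (hiff.2 hyB)]
      rw [nrm_eq hφ.toIsWeight hs he hx, dl_eq hφ he hx, e.right_inv hy]
      have : Real.exp (φ e y) * Real.exp (-φ e y) = 1 := by
        rw [← Real.exp_add]; simp
      linear_combination (‖s e y‖ ^ 2 * Real.exp (-(k * φ e y)) * (lev (φ e) y).det.re) * this
    · simp only [Set.indicator_of_notMem hyB, Set.indicator_of_notMem (fun h => hyB (hiff.1 h)),
        zero_mul]
  rw [h1, setIntegral_indicator hB.measurableSet, Set.inter_eq_self_of_subset_right hBe]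

theorem integrable_nrm (hφ : IsPos 1 φ) (hμ : IsDens μ φ) {k : ℕ} {s : Fam n M ℂ}
    (hs : IsSec k s) : Integrable (fun x => nrm k φ s x * dl φ x) μ := by
  haveI := isFiniteMeasure_of_isDens hφ.toIsWeight hμ
  have hc : Continuous fun x => nrm k φ s x * dl φ x :=
    (continuous_nrm hφ.toIsWeight hs).mul (continuous_dl hφ)
  obtain ⟨C, -, hC⟩ := upper_bound isCompact_univ (hc.norm.continuousOn)
  exact Integrable.of_bound hc.aestronglyMeasurable C (Eventually.of_forall fun x => hC x (mem_univ x))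

theorem setIntegral_le (hφ : IsPos 1 φ) (hμ : IsDens μ φ) {k : ℕ} {s : Fam n M ℂ} (hs : IsSec k s)
    {e : Ch n M} (he : e ∈ atlas (E n) M) {B : Set (E n)} (hB : IsCompact B) (hBe : B ⊆ e.target) :
    ∫ y in B, ‖s e y‖ ^ 2 * Real.exp (-(k * φ e y)) * (lev (φ e) y).det.re ≤
      ∫ x, nrm k φ s x * dl φ x ∂μ := by
  rw [← chart_formula hφ hμ hs he hB hBe]
  have h0 : ∀ x, 0 ≤ nrm k φ s x * dl φ x := fun x =>
    mul_nonneg (nrm_nonneg k φ s x) (dl_pos hφ x).le
  refine integral_mono_of_nonneg (Eventually.of_forall fun x => ?_) (integrable_nrm hφ hμ hs)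
    (Eventually.of_forall fun x => ?_)
  · exact Set.indicator_nonneg (fun x _ => h0 x) x
  · exact Set.indicator_le_self' (fun x _ => h0 x) x

theorem integral_ext (hφ : IsPos 1 φ) (hμ : IsDens μ φ) (k : ℕ) {e : Ch n M}
    (he : e ∈ atlas (E n) M) {B : Set (E n)} (hB : IsCompact B) (hBe : B ⊆ e.target)
    {u : E n → ℂ} (hu : ContDiff ℝ ∞ u) (huB : tsupport u ⊆ B) :
    ∫ x, nrm k φ (ext k e u) x * dl φ x ∂μ =
      ∫ y in B, ‖u y‖ ^ 2 * Real.exp (-(k * φ e y)) * (lev (φ e) y).det.re := by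
  have hcs : HasCompactSupport u := hB.of_isClosed_subset (isClosed_tsupport u) huB
  have hs : IsSec k (ext k e u : Fam n M ℂ) := ext_isSec k he hu hcs (huB.trans hBe)
  have h1 : (fun x => nrm k φ (ext k e u) x * dl φ x) =
      (e.symm '' B).indicator (fun x => nrm k φ (ext k e u) x * dl φ x) := by
    funext x
    by_cases hx : x ∈ e.symm '' B
    · rw [Set.indicator_of_mem hx]
    · rw [Set.indicator_of_notMem hx]
      unfold nrm
      rw [ext_zero k huB (e' := chartAt (E n) x) (by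
        rw [(chartAt (E n) x).left_inv (mem_chart_source (E n) x)]; exact hx)]
      simp
  rw [h1, chart_formula hφ hμ hs he hB hBe]
  refine setIntegral_congr_fun hB.measurableSet fun y hy => ?_
  rw [ext_apply k he u (hBe hy)]

/-- the norm of `∂̄` of the extension as an integral in the chart -/
theorem dp_ext (hφ : IsPos 1 φ) (hμ : IsDens μ φ) {k : ℕ} (hψ : IsPos (k + 1) (psik k φ))
    {e : Ch n M} (he : e ∈ atlas (E n) M) {B : Set (E n)} (hB : IsCompact B) (hBe : B ⊆ e.target)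
    {u : E n → ℂ} (hu : ContDiff ℝ ∞ u) (huB : tsupport u ⊆ B) :
    dp μ φ (psik k φ) (ext k e u) (ext k e u) =
      ∫ y in B, cn (lev (psik k φ e) y) (dbv u y) (dbv u y) * (Real.exp (-psik k φ e y) : ℂ) := by
  have hcs : HasCompactSupport u := hB.of_isClosed_subset (isClosed_tsupport u) huB
  have hs : IsSec k (ext k e u : Fam n M ℂ) := ext_isSec k he hu hcs (huB.trans hBe)
  have hcl : IsClosed (e.symm '' B) := isClosed_image hB hBe
  have hzero : ∀ e' : Ch n M, ∀ y ∈ e'.target, e'.symm y ∉ e.symm '' B →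
      dbv ((ext k e u : Fam n M ℂ) e') y = 0 := by
    intro e' y hy hyB
    funext j
    have hev : (ext k e u : Fam n M ℂ) e' =ᶠ[𝓝 y] fun _ => 0 := by
      have hc : ContinuousAt e'.symm y := e'.continuousAt_symm hy
      filter_upwards [hc.preimage_mem_nhds (hcl.isOpen_compl.mem_nhds hyB)] with z hz
      exact ext_zero k huB hz
    show db j _ y = 0
    rw [db_congr hev, db_const]
  have hcn0 : ∀ Θ : Matrix (Fin n) (Fin n) ℂ, cn Θ 0 0 = 0 := by
    intro Θ; simp [cn]
  unfold dp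
  rw [← setIntegral_eq_integral_of_forall_compl_eq_zero (s := e.source) (by
    intro x hx
    unfold fn en
    rw [hzero (chartAt (E n) x) _ (mem_chart_target (E n) x) (by
      rw [(chartAt (E n) x).left_inv (mem_chart_source (E n) x)]
      rintro ⟨y, hy, rfl⟩
      exact hx (e.map_target (hBe hy))), hcn0]
    simp)]
  rw [setIntegral_fn hφ.toIsWeight hμ (en_isDen hψ hs hs) he]
  have h2 : ∀ y ∈ e.target, en (psik k φ) (ext k e u) (ext k e u) e y =
      cn (lev (psik k φ e) y) (dbv u y) (dbv u y) * (Real.exp (-psik k φ e y) : ℂ) := by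
    intro y hy
    have h3 : dbv ((ext k e u : Fam n M ℂ) e) y = dbv u y := by
      funext j
      refine db_congr ?_ j
      filter_upwards [e.open_target.mem_nhds hy] with z hz
      exact ext_apply k he u hz
    unfold en
    rw [h3]
  rw [setIntegral_congr_fun e.open_target.measurableSet h2]
  refine setIntegral_eq_of_subset_of_forall_diff_eq_zero e.open_target.measurableSet hBe ?_
  rintro y ⟨hy, hyB⟩
  have h3 : dbv u y = 0 := by
    funext j
    have hev : u =ᶠ[𝓝 y] fun _ => 0 := by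
      have : y ∉ tsupport u := fun h => hyB (huB h)
      exact notMem_tsupport_iff_eventuallyEq.1 this
    show db j _ y = 0
    rw [db_congr hev, db_const]
  rw [h3, hcn0, zero_mul]

theorem gauss_bound {H : Matrix (Fin n) (Fin n) ℂ} (hH : H.PosDef) {k : ℕ} (hk : 1 ≤ k) {t ε : ℝ}
    (ht0 : 0 < t) (ht : t < 1) (htε : (1 + t) / (1 - t) ^ n ≤ 1 + ε) (p : E n) :
    Integrable (fun y : E n => (1 + t) * H.det.re * Real.exp (-(k * ((1 - t) * hf H (y - p))))) ∧
    ∫ y : E n, (1 + t) * H.det.re * Real.exp (-(k * ((1 - t) * hf H (y - p))))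
      ≤ (1 + ε) * (Real.pi / k) ^ n := by
  have hk0 : (0 : ℝ) < k := by exact_mod_cast hk
  have h1t : 0 < 1 - t := sub_pos.2 ht
  obtain ⟨hg1, hg2⟩ := gauss hH (c := k * (1 - t)) (by positivity)
  have hd := det_pos hH
  have h1 : (fun z : E n => Real.exp (-(k * (1 - t) * (∑ j, ∑ k, H j k * z j *
      (starRingEnd ℂ) (z k)).re))) = fun z => Real.exp (-(k * ((1 - t) * hf H z))) := by
    funext z
    unfold hf
    ring_nf
  rw [h1] at hg1 hg2
  refine ⟨(hg1.comp_sub_right p).const_mul _, ?_⟩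
  rw [integral_const_mul, integral_sub_right_eq_self
    (fun z : E n => Real.exp (-(k * ((1 - t) * hf H z)))) p, hg2]
  have h2 : (1 + t) * H.det.re * ((Real.pi / (k * (1 - t))) ^ n / H.det.re)
      = (1 + t) / (1 - t) ^ n * (Real.pi / k) ^ n := by
    have h3 : (Real.pi / (k * (1 - t))) ^ n * (1 - t) ^ n = (Real.pi / k) ^ n := by
      rw [← mul_pow]; congr 1; field_simp
    rw [← h3]
    field_simp
  rw [h2]
  exact mul_le_mul_of_nonneg_right htε (by positivity)

theorem model_local (hφ : IsPos 1 φ) (hμ : IsDens μ φ) {ε : ℝ} (hε : 0 < ε) {e : Ch n M}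
    (he : e ∈ atlas (E n) M) {K : Set (E n)} (hK : IsCompact K) (hKe : K ⊆ e.target) :
    ∃ k₀ : ℕ, ∃ C > 0, ∃ c > 0, ∀ k ≥ k₀, ∀ p ∈ K, Model μ φ ε C c k (e.symm p) := by
  have hU := e.open_target
  have hsm := hφ.smooth e he
  have hpos := hφ.pos e he
  obtain ⟨δ, hδ, hδU, c₀, hc₀, t, ht0, ht1, htε, hloc⟩ := local_data hU hsm hpos hK hKe hε
  obtain ⟨C₂, hC₂, r₃, hr₃, hsub⟩ := submean_unif hU hsm hK hKe
  obtain ⟨k₂, hk₂⟩ := psik_isPos hφ
  have hK1 : IsCompact (Metric.cthickening δ K) := hK.cthickening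
  obtain ⟨d, hd, hdl⟩ := lower_of_pos hK1 ((continuousOn_det hU hsm).mono hδU)
    (fun y hy => det_pos (hpos y (hδU hy)))
  obtain ⟨D₁, hD₁, hD₁u⟩ := upper_bound hK1 ((continuousOn_det hU hsm).mono hδU)
  -- the bump function
  let χ : ContDiffBump (0 : E n) := ⟨δ / 2, δ, by positivity, by linarith⟩
  have hχs : ContDiff ℝ ∞ (χ : E n → ℝ) := χ.contDiff
  have hχ0 : ∀ z : E n, δ < ‖z‖ → χ z = 0 := fun z hz => χ.zero_of_le_dist (by
    rw [dist_zero_right]; exact hz.le)
  have hχ1 : ∀ z : E n, ‖z‖ ≤ δ / 2 → χ z = 1 := fun z hz => χ.one_of_mem_closedBall (by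
    rw [mem_closedBall_zero_iff]; exact hz)
  have hχsc : ContDiff ℝ ∞ (fun z : E n => ((χ z : ℝ) : ℂ)) := Complex.ofRealCLM.contDiff.comp hχs
  obtain ⟨A, hA, hAb⟩ : ∃ A > 0, ∀ z ∈ Metric.closedBall (0 : E n) δ,
      ‖dbv (fun z => ((χ z : ℝ) : ℂ)) z‖ ≤ A := by
    refine upper_bound (isCompact_closedBall 0 δ) (Continuous.continuousOn ?_)
    exact (continuous_pi fun j => (contDiff_db hχsc j).continuous).norm
  obtain ⟨Cn, hCn, hCnb⟩ := cn_upper hU hsm hpos hK1 hδU A
  set V : ℝ := volume.real (Metric.closedBall (0 : E n) δ) with hV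
  have hV0 : 0 ≤ V := measureReal_nonneg
  -- the constants
  obtain ⟨k₃, hk₃⟩ := exists_nat_ge ((2 * r₃ / δ) ^ 2)
  refine ⟨max 1 (max k₂ k₃), C₂ / d + 2 * Cn * D₁ * V, by positivity, c₀ * (δ / 2) ^ 2,
    by positivity, fun k hk p hpK => ?_⟩
  have hk1 : 1 ≤ k := (le_max_left _ _).trans hk
  have hkk2 : k₂ ≤ k := ((le_max_left _ _).trans (le_max_right _ _)).trans hk
  have hkk3 : k₃ ≤ k := ((le_max_right _ _).trans (le_max_right _ _)).trans hk
  have hk0 : (0 : ℝ) < k := by exact_mod_cast hk1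
  obtain ⟨g, hg, hgp, hgy⟩ := hloc p hpK
  set B : Set (E n) := Metric.closedBall p δ with hB
  have hBc : IsCompact B := isCompact_closedBall p δ
  have hBth : B ⊆ Metric.cthickening δ K := fun y hy =>
    Metric.mem_cthickening_of_dist_le y p δ K hpK hy
  have hBe : B ⊆ e.target := hBth.trans hδU
  have hpB : p ∈ B := Metric.mem_closedBall_self hδ.le
  set u : E n → ℂ := mu χ g k p with hu
  have huc : ContDiff ℝ ∞ u := mu_contDiff hχs hg k p
  have huB : tsupport u ⊆ B := mu_tsupport hχ0 k p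
  have hcs : HasCompactSupport u := hBc.of_isClosed_subset (isClosed_tsupport u) huB
  have hs : IsSec k (ext k e u : Fam n M ℂ) := ext_isSec k he huc hcs (huB.trans hBe)
  have hxs : e.symm p ∈ e.source := e.map_target (hKe hpK)
  have hex : e (e.symm p) = p := e.right_inv (hKe hpK)
  have hposK := hk₂ k hkk2
  refine ⟨ext k e u, hs, ?_, ?_, ?_, ?_⟩
  · rw [nrm_eq hφ.toIsWeight hs he hxs, hex, ext_apply k he u (hKe hpK), hu, norm_mu_sq]
    rw [sub_self, hχ1 0 (by simp; positivity), hgp]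
    simp
  · rw [integral_ext hφ hμ k he hBc hBe huc huB]
    obtain ⟨hg1, hg2⟩ := gauss_bound (hpos p (hKe hpK)) hk1 ht0 ht1 htε p
    refine le_trans ?_ hg2
    rw [← integral_indicator hBc.measurableSet]
    have hnn : ∀ y ∈ B, 0 ≤ ‖u y‖ ^ 2 * Real.exp (-(k * φ e y)) * (lev (φ e) y).det.re := by
      intro y hy
      have := (det_pos (hpos y (hBe hy))).le
      positivity
    refine integral_mono_of_nonneg (Eventually.of_forall fun y => Set.indicator_nonneg hnn y) hg1
      (Eventually.of_forall fun y => ?_)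
    have hdp := det_pos (hpos p (hKe hpK))
    have hr0 : 0 ≤ (1 + t) * (lev (φ e) p).det.re *
        Real.exp (-(k * ((1 - t) * hf (lev (φ e) p) (y - p)))) := by positivity
    by_cases hy : y ∈ B
    · simp only [Set.indicator_of_mem hy]
      obtain ⟨h1, -, h3⟩ := hgy y hy
      rw [hu, norm_mu_sq]
      have hχle : χ (y - p) ^ 2 ≤ 1 := by
        have := χ.le_one (x := y - p)
        have h0 := χ.nonneg (x := y - p)
        nlinarith
      have hexp : Real.exp (-(k * (φ e y - 2 * (g y).re))) ≤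
          Real.exp (-(k * ((1 - t) * hf (lev (φ e) p) (y - p)))) := by
        refine Real.exp_le_exp.2 (neg_le_neg (mul_le_mul_of_nonneg_left h1 hk0.le))
      have hdy := (det_pos (hpos y (hBe hy))).le
      calc χ (y - p) ^ 2 * Real.exp (-(k * (φ e y - 2 * (g y).re))) * (lev (φ e) y).det.re
          ≤ 1 * Real.exp (-(k * ((1 - t) * hf (lev (φ e) p) (y - p)))) *
            ((1 + t) * (lev (φ e) p).det.re) := by
            gcongr
        _ = _ := by ring
    · simpa only [Set.indicator_of_notMem hy] using hr0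
  · rw [dp_ext hφ hμ hposK.1 he hBc hBe huc huB]
    refine (Complex.re_le_norm _).trans ?_
    have hbd : ∀ y ∈ B, ‖cn (lev (psik k φ e) y) (dbv u y) (dbv u y) *
        (Real.exp (-psik k φ e y) : ℂ)‖ ≤ 2 * Cn * D₁ * Real.exp (-(c₀ * (δ / 2) ^ 2 * k)) := by
      intro y hy
      have hye := hBe hy
      have hP := hposK.1.pos e he y hye
      rw [norm_mul]
      have h1 : ‖cn (lev (psik k φ e) y) (dbv u y) (dbv u y)‖ =
          (cn (lev (psik k φ e) y) (dbv u y) (dbv u y)).re := by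
        rw [← Complex.re_eq_norm.2 ?_]
        rw [Complex.le_def]
        exact ⟨cn_self_nonneg hP _, (cn_self_im hP _).symm⟩
      have h2 : ‖(Real.exp (-psik k φ e y) : ℂ)‖ = Real.exp (-(k * φ e y)) * (lev (φ e) y).det.re := by
        rw [Complex.norm_real, Real.norm_of_nonneg (Real.exp_pos _).le]
        have hdy := det_pos (hpos y hye)
        unfold psik
        rw [neg_sub, sub_eq_add_neg, Real.exp_add, Real.exp_log hdy, mul_comm]
      rw [h1, h2]
      have h3 := hposK.2 e he y hye (dbv u y)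
      have hdbv : dbv u y = fun j => Complex.exp (k * g y) *
          dbv (fun z => ((χ z : ℝ) : ℂ)) (y - p) j := by
        funext j
        rw [hu]; exact dbv_mu hχs hg k p y j
      have h4 : (cn (lev (φ e) y) (dbv u y) (dbv u y)).re = ‖Complex.exp (k * g y)‖ ^ 2 *
          (cn (lev (φ e) y) (dbv (fun z => ((χ z : ℝ) : ℂ)) (y - p))
            (dbv (fun z => ((χ z : ℝ) : ℂ)) (y - p))).re := by
        rw [hdbv]; exact cn_smul _ _ _
      have hcnn := cn_self_nonneg (hpos y hye) (dbv (fun z => ((χ z : ℝ) : ℂ)) (y - p))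
      have hdy := det_pos (hpos y hye)
      by_cases hin : ‖y - p‖ < δ / 2
      · have h5 : dbv (fun z => ((χ z : ℝ) : ℂ)) (y - p) = 0 := by
          funext j
          have hev : (fun z => ((χ z : ℝ) : ℂ)) =ᶠ[𝓝 (y - p)] fun _ => 1 := by
            have : ∀ᶠ z in 𝓝 (y - p), ‖z‖ < δ / 2 :=
              continuous_norm.continuousAt.eventually_lt_const hin
            filter_upwards [this] with z hz
            rw [hχ1 z hz.le]; simp
          show db j _ _ = 0
          rw [db_congr hev, db_const]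
        rw [h5] at h4
        have h6 : (cn (lev (φ e) y) 0 0).re = 0 := by simp [cn]
        rw [h4, h6] at h3
        have h7 := cn_self_nonneg hP (dbv u y)
        have h8 : (cn (lev (psik k φ e) y) (dbv u y) (dbv u y)).re = 0 :=
          le_antisymm (by simpa using h3) h7
        rw [h8, zero_mul]
        positivity
      · push Not at hin
        have hyp : y - p ∈ Metric.closedBall (0 : E n) δ := by
          rw [mem_closedBall_zero_iff, ← dist_eq_norm]; exact hy
        have h5 := hCnb y (hBth hy) _ (hAb (y - p) hyp)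
        have h6 : ‖Complex.exp (k * g y)‖ ^ 2 * Real.exp (-(k * φ e y)) ≤
            Real.exp (-(c₀ * (δ / 2) ^ 2 * k)) := by
          rw [Complex.norm_exp, ← Real.exp_nat_mul, ← Real.exp_add]
          refine Real.exp_le_exp.2 ?_
          have h7 := (hgy y hy).2.1
          have h8 : (δ / 2) ^ 2 ≤ ‖y - p‖ ^ 2 := by gcongr
          have h9 : c₀ * (δ / 2) ^ 2 ≤ φ e y - 2 * (g y).re :=
            (mul_le_mul_of_nonneg_left h8 hc₀.le).trans h7
          have h10 := mul_le_mul_of_nonneg_left h9 hk0.le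
          simp only [Complex.mul_re, Complex.natCast_re, Complex.natCast_im, zero_mul, sub_zero]
          push_cast
          linarith
        have h2k : (2 : ℝ) / k ≤ 2 := by
          rw [div_le_iff₀ hk0]
          have : (1 : ℝ) ≤ k := by exact_mod_cast hk1
          linarith
        calc (cn (lev (psik k φ e) y) (dbv u y) (dbv u y)).re *
              (Real.exp (-(k * φ e y)) * (lev (φ e) y).det.re)
            ≤ (2 / k * (‖Complex.exp (k * g y)‖ ^ 2 *
          (cn (lev (φ e) y) (dbv (fun z => ((χ z : ℝ) : ℂ)) (y - p))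
            (dbv (fun z => ((χ z : ℝ) : ℂ)) (y - p))).re)) *
              (Real.exp (-(k * φ e y)) * (lev (φ e) y).det.re) := by
              rw [← h4]; gcongr
          _ = 2 / k * (cn (lev (φ e) y) (dbv (fun z => ((χ z : ℝ) : ℂ)) (y - p))
            (dbv (fun z => ((χ z : ℝ) : ℂ)) (y - p))).re * (lev (φ e) y).det.re *
              (‖Complex.exp (k * g y)‖ ^ 2 * Real.exp (-(k * φ e y))) := by ring
          _ ≤ 2 * Cn * D₁ * Real.exp (-(c₀ * (δ / 2) ^ 2 * k)) := by
              have := hD₁u y (hBth hy)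
              gcongr
    refine (norm_setIntegral_le_of_norm_le_const (hBc.measure_lt_top) hbd).trans ?_
    have hvol : volume.real B = V := by
      rw [hV, hB]
      unfold Measure.real
      rw [Measure.addHaar_closedBall_center volume p δ]
    rw [hvol]
    have : 0 ≤ C₂ / d * Real.exp (-(c₀ * (δ / 2) ^ 2 * k)) := by positivity
    nlinarith [this]
  · intro h hh
    have hsh : IsSec k (ext k e u - h) := IsSec.sub hs hh.toIsSec
    rw [nrm_eq hφ.toIsWeight hsh he hxs, hex]
    obtain ⟨-, hsub2⟩ := hsub p hpK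
    set ρ : ℝ := r₃ / Real.sqrt k with hρ
    have hρδ : ρ ≤ δ / 2 := by
      rw [hρ, div_le_iff₀ (Real.sqrt_pos.2 hk0)]
      have h1 : 2 * r₃ / δ ≤ Real.sqrt k := by
        refine Real.le_sqrt_of_sq_le (hk₃.trans ?_)
        exact_mod_cast hkk3
      rw [div_le_iff₀ hδ] at h1
      linarith
    set B' : Set (E n) := Metric.closedBall p ρ with hB'
    have hB'B : B' ⊆ B := Metric.closedBall_subset_closedBall (by linarith)
    have hB'c : IsCompact B' := isCompact_closedBall p ρ
    have hB'e : B' ⊆ e.target := hB'B.trans hBe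
    have hdiff : DifferentiableOn ℂ ((ext k e u - h : Fam n M ℂ) e) B' := by
      have h1 : DifferentiableOn ℂ (fun y => Complex.exp (k * g y) - h e y) B' :=
        ((hg.const_mul _).cexp.differentiableOn).sub ((hh.hol e he).mono hB'e)
      refine h1.congr fun y hy => ?_
      show (ext k e u : Fam n M ℂ) e y - h e y = _
      rw [ext_apply k he u (hB'e hy), hu]
      unfold mu
      rw [hχ1 (y - p) (by rw [← dist_eq_norm]; exact (Metric.mem_closedBall.1 hy).trans hρδ)]
      simp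
    have h1 := hsub2 k hk1 _ hdiff
    have h2 := setIntegral_le hφ hμ hsh he hB'c hB'e
    have h3 : ∫ y in B', ‖(ext k e u - h : Fam n M ℂ) e y‖ ^ 2 * Real.exp (-(k * φ e y)) ≤
        1 / d * ∫ y in B', ‖(ext k e u - h : Fam n M ℂ) e y‖ ^ 2 * Real.exp (-(k * φ e y)) *
          (lev (φ e) y).det.re := by
      rw [← integral_const_mul]
      refine integral_mono_of_nonneg (Eventually.of_forall fun y => by positivity) ?_ ?_
      · have hio : IntegrableOn (fun y => ‖(ext k e u - h : Fam n M ℂ) e y‖ ^ 2 *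
            Real.exp (-(k * φ e y)) * (lev (φ e) y).det.re) B' := ?_
        · exact Integrable.const_mul hio _
        refine ContinuousOn.integrableOn_compact hB'c ?_
        refine ContinuousOn.mul (ContinuousOn.mul ?_ ?_) ((continuousOn_det hU hsm).mono hB'e)
        · exact (hdiff.continuousOn.norm).pow 2
        · refine Real.continuous_exp.comp_continuousOn (ContinuousOn.neg ?_)
          exact continuousOn_const.mul (hsm.continuousOn.mono hB'e)
      · refine (ae_restrict_iff' hB'c.measurableSet).2 (Eventually.of_forall fun y hy => ?_)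
        have h4 := hdl y (hBth (hB'B hy))
        have h5 : 0 ≤ ‖(ext k e u - h : Fam n M ℂ) e y‖ ^ 2 * Real.exp (-(k * φ e y)) := by positivity
        show _ ≤ 1 / d * _
        rw [one_div, mul_comm, ← div_eq_mul_inv, le_div_iff₀ hd]
        exact mul_le_mul_of_nonneg_left h4 h5
    have hI := integral_nrm_nonneg (μ := μ) hφ k (ext k e u - h)
    calc _ ≤ _ := h1
      _ ≤ C₂ * (k : ℝ) ^ n * (1 / d * ∫ x, nrm k φ (ext k e u - h) x * dl φ x ∂μ) := by
          refine mul_le_mul_of_nonneg_left (h3.trans ?_) (by positivity)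
          exact mul_le_mul_of_nonneg_left h2 (by positivity)
      _ = C₂ / d * (k : ℝ) ^ n * ∫ x, nrm k φ (ext k e u - h) x * dl φ x ∂μ := by ring
      _ ≤ _ := by
          refine mul_le_mul_of_nonneg_right ?_ hI
          refine mul_le_mul_of_nonneg_right ?_ (by positivity)
          have : 0 ≤ 2 * Cn * D₁ * V := by positivity
          linarith

end Global

end C3

variable {n : ℕ} {M : Type*} [TopologicalSpace M] [ChartedSpace (E n) M]
  [IsManifold 𝓘(ℂ, E n) ω M]
variable [CompactSpace M] [T2Space M]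
variable [MeasurableSpace M] [BorelSpace M] {μ : Measure M} {φ : Fam n M ℝ}

/-- Module C3: local model sections -/
theorem model (hφ : IsPos 1 φ) (hμ : IsDens μ φ) {ε : ℝ} (hε : 0 < ε) :
    ∃ k₀ : ℕ, ∃ C > 0, ∃ c > 0, ∀ k ≥ k₀, ∀ x : M, ∃ σ : Fam n M ℂ, IsSec k σ ∧
      nrm k φ σ x = 1 ∧
      ∫ x, nrm k φ σ x * dl φ x ∂μ ≤ (1 + ε) * (Real.pi / k) ^ n ∧
      (dp μ φ (psik k φ) σ σ).re ≤ C * Real.exp (-(c * k)) ∧
      ∀ h : Fam n M ℂ, IsHol k h →
        nrm k φ (σ - h) x ≤ C * (k : ℝ) ^ n * ∫ x, nrm k φ (σ - h) x * dl φ x ∂μ := by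
  have key : ∃ k₀ : ℕ, ∃ C > 0, ∃ c > 0, ∀ k ≥ k₀, ∀ x ∈ (univ : Set M), C3.Model μ φ ε C c k x := by
    refine isCompact_univ.induction_on (p := fun S => ∃ k₀ : ℕ, ∃ C > 0, ∃ c > 0, ∀ k ≥ k₀,
      ∀ x ∈ S, C3.Model μ φ ε C c k x) ?_ ?_ ?_ ?_
    · exact ⟨0, 1, one_pos, 1, one_pos, fun k _ x hx => hx.elim⟩
    · rintro S T hST ⟨k₀, C, hC, c, hc, h⟩
      exact ⟨k₀, C, hC, c, hc, fun k hk x hx => h k hk x (hST hx)⟩
    · rintro S T ⟨k₀, C, hC, c, hc, h⟩ ⟨k₀', C', hC', c', hc', h'⟩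
      refine ⟨max k₀ k₀', max C C', lt_max_of_lt_left hC, min c c', lt_min hc hc', ?_⟩
      rintro k hk x (hx | hx)
      · exact (h k ((le_max_left _ _).trans hk) x hx).mono hφ (le_max_left _ _) hC.le (min_le_left _ _)
      · exact (h' k ((le_max_right _ _).trans hk) x hx).mono hφ (le_max_right _ _) hC'.le
          (min_le_right _ _)
    · intro x _
      have he := chart_mem_atlas (E n) x
      have hx := mem_chart_source (E n) x
      obtain ⟨K, hK, hKt, hKn⟩ := local_compact_nhds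
        ((chartAt (E n) x).open_target.mem_nhds (mem_chart_target (E n) x))
      obtain ⟨k₀, C, hC, c, hc, h⟩ := C3.model_local hφ hμ hε he hKn hKt
      refine ⟨(chartAt (E n) x).source ∩ (chartAt (E n) x) ⁻¹' K, mem_nhdsWithin_of_mem_nhds
        (inter_mem ((chartAt (E n) x).open_source.mem_nhds hx)
          (((chartAt (E n) x).continuousAt hx).preimage_mem_nhds hK)),
        k₀, C, hC, c, hc, fun k hk y hy => ?_⟩
      have := h k hk _ hy.2
      rwa [(chartAt (E n) x).left_inv hy.1] at this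
  obtain ⟨k₀, C, hC, c, hc, h⟩ := key
  exact ⟨k₀, C, hC, c, hc, fun k hk x => h k hk x (mem_univ x)⟩

end Pool.Agent.helper63.NU
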